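import Mathlib
import Pool.Agent.H188.Ab.K4.All
import Pool.Agent.H188.Ab.Low

set_option autoImplicit false

/-!
The least `k` for which 2-abelian squares of period at least `k` are avoidable over two letters
is three or four.
-/

namespace Pool.Agent.Results.MP_6f77e1_co.AtMostFour

open Pool.Agent.H188.Ab

/-- The least `k ≥ 1` such that some infinite binary word has no factor that is a 2-abelian square
of period at least `k` exists and is `3` or `4`. -/
theorem result : ∃ k₀ : ℕ, IsLeast {k : ℕ | 1 ≤ k ∧ Avoidable k} k₀ ∧ 3 ≤ k₀ ∧ k₀ ≤ 4 := by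
  classical
  have h4 : Avoidable 4 := avoid K4.loop
  have hne : ∃ k, 1 ≤ k ∧ Avoidable k := ⟨4, by norm_num, h4⟩
  refine ⟨Nat.find hne, ⟨Nat.find_spec hne, fun k hk => Nat.find_min' hne hk⟩, ?_,
    Nat.find_min' hne ⟨by norm_num, h4⟩⟩
  by_contra hlt
  have h2 : Avoidable 2 := (Nat.find_spec hne).2.mono (by omega)
  exact not_avoidable_two h2

end Pool.Agent.Results.MP_6f77e1_co.AtMostFour
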